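import Pool.Agent.Q57.QP.Stm

set_option autoImplicit false

/-! # Project QP, job FF: polydiscs -/

namespace Pool.Agent.Q247.QP

open MeasureTheory MvPolynomial Topology
open Pool.Agent.W427.SMC Pool.Agent.Y230.PT Pool.Agent.Y230.PS
open Pool.Agent.Q57.QP
open scoped ENNReal

attribute [local instance] msK bsK msZ bsZ

variable {p : ℕ} [Fact p.Prime] {σ ι : Type}

lemma lin_meas (a : ℚ_[p]) : Measurable (fun z : ℤ_[p] => a * inc p z) :=
  ((continuous_const.mul continuous_id).comp (inc_emb p).continuous).measurable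

lemma map_lin (a : ℚ_[p]) (ha : a ≠ 0) : Measure.map (fun z : ℤ_[p] => a * inc p z) (mu p) =
    (N p 1 a)⁻¹ • (Pool.Agent.Y230.PT.nu p).restrict (Metric.closedBall 0 ‖a‖) := by
  ext S hS
  rw [Measure.map_apply (lin_meas a) hS, Measure.smul_apply, Measure.restrict_apply hS,
    smul_eq_mul]
  have hB : MeasurableSet (S ∩ Metric.closedBall (0 : ℚ_[p]) ‖a‖) :=
    hS.inter Metric.isClosed_closedBall.measurableSet
  have h1 := lintegral_scale p a ha ((S ∩ Metric.closedBall (0 : ℚ_[p]) ‖a‖).indicator 1)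
  rw [lintegral_indicator_one hB] at h1
  have h2 : ∀ x, (S ∩ Metric.closedBall (0 : ℚ_[p]) ‖a‖).indicator (1 : ℚ_[p] → ℝ≥0∞) (a * x) =
      (Metric.closedBall (0 : ℚ_[p]) 1).indicator
        (fun x => S.indicator (1 : ℚ_[p] → ℝ≥0∞) (a * x)) x := by
    intro x
    have h3 : a * x ∈ Metric.closedBall (0 : ℚ_[p]) ‖a‖ ↔ x ∈ Metric.closedBall (0 : ℚ_[p]) 1 := by
      rw [Metric.mem_closedBall, Metric.mem_closedBall, dist_zero_right, dist_zero_right, norm_mul,
        mul_le_iff_le_one_right (norm_pos_iff.2 ha)]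
    by_cases h4 : x ∈ Metric.closedBall (0 : ℚ_[p]) 1
    · rw [Set.indicator_of_mem h4]
      by_cases h5 : a * x ∈ S
      · rw [Set.indicator_of_mem h5, Set.indicator_of_mem (Set.mem_inter h5 (h3.2 h4))]
      · rw [Set.indicator_of_notMem h5, Set.indicator_of_notMem (fun h => h5 h.1)]
    · rw [Set.indicator_of_notMem h4, Set.indicator_of_notMem (fun h => h4 (h3.1 h.2))]
  simp only [h2] at h1
  rw [lintegral_indicator Metric.isClosed_closedBall.measurableSet, lintegral_unit] at h1
  have h6 : ∫⁻ z, S.indicator (1 : ℚ_[p] → ℝ≥0∞) (a * inc p z) ∂(mu p) =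
      mu p ((fun z : ℤ_[p] => a * inc p z) ⁻¹' S) := by
    rw [← lintegral_indicator_one ((lin_meas a) hS)]
    rfl
  rw [h6] at h1
  rw [← h1, ← mul_assoc, ENNReal.inv_mul_cancel (N_ne_zero 1 ha) (N_ne_top 1 a), one_mul]

/-- the polydisc -/
def disc (c : σ → ℚ_[p]) : Set (σ → ℚ_[p]) := Set.univ.pi fun i => Metric.closedBall 0 ‖c i‖

lemma disc_CO [Fintype σ] (c : σ → ℚ_[p]) (hc : ∀ i, c i ≠ 0) : CO (disc c) := by
  refine ⟨isCompact_univ_pi fun i => isCompact_closedBall _ _, ?_⟩
  exact isOpen_set_pi Set.finite_univ fun i _ =>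
    IsUltrametricDist.isOpen_closedBall _ (norm_ne_zero_iff.2 (hc i))

lemma pi_lin [Fintype σ] (c : σ → ℚ_[p]) (hc : ∀ i, c i ≠ 0) :
    Measure.map (fun (z : σ → ℤ_[p]) i => c i * inc p (z i)) (Measure.pi fun _ : σ => mu p) =
      (∏ i, (N p 1 (c i))⁻¹) • (muE p σ).restrict (disc c) := by
  have h1 : (fun (z : σ → ℤ_[p]) i => c i * inc p (z i)) =
      fun z i => (fun i (t : ℤ_[p]) => c i * inc p t) i (z i) := rfl
  rw [h1, Measure.pi_map_pi (μ := fun _ : σ => mu p)
    (f := fun i (t : ℤ_[p]) => c i * inc p t) (fun i => (lin_meas (c i)).aemeasurable)]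
  refine Measure.pi_eq (μ := fun i => Measure.map (fun t : ℤ_[p] => c i * inc p t) (mu p))
    fun s hs => ?_
  rw [Measure.smul_apply, Measure.restrict_apply (MeasurableSet.univ_pi hs), smul_eq_mul, disc,
    ← Set.pi_inter_distrib, muE, Measure.pi_pi, ← Finset.prod_mul_distrib]
  refine Finset.prod_congr rfl fun i _ => ?_
  rw [map_lin (c i) (hc i), Measure.smul_apply, Measure.restrict_apply (hs i), smul_eq_mul]

theorem qp_ff : StGlue → StFF := by
  intro hG p _ σ ι _ _ f m hm c hc
  have hcont : Continuous (nrm f) := by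
    unfold nrm
    exact continuous_norm.comp (continuous_pi fun j => MvPolynomial.continuous_eval _)
  have hS : Siz (nrm f) := by
    refine ⟨hcont, fun x => ?_⟩
    rcases isEmpty_or_nonempty ι with hι | hι
    · left
      unfold nrm
      rw [Subsingleton.elim (fun j => eval x (f j)) 0, norm_zero]
    · obtain ⟨j, hj⟩ := norm_attained (fun j => eval x (f j))
      unfold nrm
      rw [hj]
      by_cases h0 : eval x (f j) = 0
      · left; rw [h0, norm_zero]
      · right
        exact ⟨_, Padic.norm_eq_zpow_neg_valuation h0⟩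
  have h1 := hG p (nrm f) hS m (disc c) (disc_CO c hc) fun P _ => hm P
  have h2 : FR p m (fun s => (((∏ i, (N p 1 (c i))⁻¹).toReal : ℝ) : ℂ) * IZ (nrm f) (disc c) s) :=
    FR.mul0 (fun T0 hT0 => Reg.const _) h1
  refine h2.congr fun s _ => ?_
  unfold FF FZ IZ
  rw [← Complex.ofReal_mul, ← ENNReal.toReal_mul]
  congr 2
  have hF : Measurable (fun x => ENNReal.ofReal (nrm f x ^ s)) :=
    ENNReal.measurable_ofReal.comp (hcont.measurable.pow_const s)
  have hg : Measurable (fun (z : σ → ℤ_[p]) i => c i * inc p (z i)) :=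
    measurable_pi_lambda _ fun i => (lin_meas (c i)).comp (measurable_pi_apply i)
  have h3 := lintegral_map (μ := Measure.pi fun _ : σ => mu p) hF hg
  rw [pi_lin c hc, lintegral_smul_measure, smul_eq_mul] at h3
  rw [h3]
  refine lintegral_congr fun z => ?_
  congr 2
  unfold sz nrm
  congr 1
  funext j
  rw [eval_scl]

end Pool.Agent.Q247.QP
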