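import Pool.Agent.Q57.QP.Stm

set_option autoImplicit false

/-! # Project QP, job FORM3: ternary forms of degree `d` -/

namespace Pool.Agent.Q247.QP

open MeasureTheory MvPolynomial Topology
open Pool.Agent.W427.SMC Pool.Agent.Y230.PT Pool.Agent.Y230.PS
open Pool.Agent.Y229 (SF IsLocalBI)
open Pool.Agent.Q57.QP
open scoped ENNReal

attribute [local instance] msK bsK msZ bsZ

section siz

variable {p : ℕ} [Fact p.Prime] {σ ι : Type}

lemma nrm_cont [Fintype ι] (f : ι → MvPolynomial σ ℚ_[p]) : Continuous (nrm f) := by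
  unfold nrm
  exact continuous_norm.comp (continuous_pi fun j => MvPolynomial.continuous_eval _)

lemma siz_nrm [Fintype ι] (f : ι → MvPolynomial σ ℚ_[p]) : Siz (nrm f) := by
  refine ⟨nrm_cont f, fun x => ?_⟩
  rcases isEmpty_or_nonempty ι with hι | hι
  · left
    unfold nrm
    rw [Subsingleton.elim (fun j => eval x (f j)) 0, norm_zero]
  · obtain ⟨j, hj⟩ := norm_attained (fun j => eval x (f j))
    unfold nrm
    rw [hj]
    by_cases h0 : eval x (f j) = 0
    · left; rw [h0, norm_zero]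
    · right
      exact ⟨_, Padic.norm_eq_zpow_neg_valuation h0⟩

lemma siz_smul {h : (σ → ℚ_[p]) → ℝ} (hh : Siz h) (a : ℚ_[p]) : Siz (fun x => ‖a‖ * h x) := by
  have hp : (p : ℝ) ≠ 0 := by exact_mod_cast (Fact.out : p.Prime).ne_zero
  refine ⟨continuous_const.mul hh.cont, fun x => ?_⟩
  by_cases ha : a = 0
  · left; simp only [ha, norm_zero, zero_mul]
  · rcases hh.val x with h0 | ⟨k, hk⟩
    · left; simp only [h0, mul_zero]
    · right
      refine ⟨-a.valuation + k, ?_⟩
      simp only [hk, Padic.norm_eq_zpow_neg_valuation ha]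
      rw [zpow_add₀ hp]

lemma LP.mono' [Fintype σ] {m m' : ℂ → ℕ∞} {h : (σ → ℚ_[p]) → ℝ} {P : σ → ℚ_[p]}
    (hm : ∀ T, 1 < ‖T‖ → m T ≤ m' T) (H : LP m h P) : LP m' h P := by
  obtain ⟨U, h1, h2, h3⟩ := H
  exact ⟨U, h1, h2, fun V hV hc => (h3 V hV hc).mono hm⟩

end siz

section chart

variable {K : Type} [Field K]

/-- the family in the chart `x_i = 1`, translated to the origin -/
noncomputable def dhT {K : Type} [Field K] (i : Fin 3) (q : Fin 2 → K)
    (F : MvPolynomial (Fin 3) K) : MvPolynomial (Fin 2) K :=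
  aeval (Fin.insertNth i (1 : MvPolynomial (Fin 2) K) (fun t => X t + C (q t)) :
    Fin 3 → MvPolynomial (Fin 2) K) F

lemma eval_dhT (i : Fin 3) (q : Fin 2 → K) (F : MvPolynomial (Fin 3) K) (y : Fin 2 → K) :
    eval y (dhT i q F) = eval (Fin.insertNth i (1 : K) (fun t => y t + q t) : Fin 3 → K) F := by
  unfold dhT
  rw [MvPolynomial.aeval_def, MvPolynomial.eval_eval₂]
  congr 1
  · ext; simp
  · funext l
    refine Fin.succAboveCases i ?_ (fun t => ?_) l
    · simp
    · simp

lemma map_dhT (φ : K →+* ℂ) (i : Fin 3) (q : Fin 2 → K) (F : MvPolynomial (Fin 3) K) :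
    map φ (dhT i q F) = dhT i (fun t => φ (q t)) (map φ F) := by
  unfold dhT
  rw [MvPolynomial.aeval_def, MvPolynomial.aeval_def, MvPolynomial.algebraMap_eq,
    MvPolynomial.algebraMap_eq, MvPolynomial.map_eval₂]
  congr 1
  funext l
  refine Fin.succAboveCases i ?_ (fun t => ?_) l
  · simp
  · simp

end chart

section roots

open Pool.Agent.Q57.MC Pool.Agent.Q57.MD

/-- the numerators of the coordinates -/
noncomputable def nuA (i : Fin 3) (q : Fin 2 → ℂ) (t : Fin 2) : MvPolynomial (Fin 3) ℂ :=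
  X (i.succAbove t) - C (q t) * X i

lemma ht_univ {F : MvPolynomial (Fin 3) ℂ} {d : ℕ} (hF : F.IsHomogeneous d) :
    HT (Finset.univ : Finset (Fin 3)) F d := by
  have h : (fun l : Fin 3 => if l ∈ (Finset.univ : Finset (Fin 3)) then 1 else 0) =
      (1 : Fin 3 → ℕ) := by
    funext l; simp
  unfold HT
  rw [h]
  exact hF

lemma frac_dhT (i : Fin 3) (q : Fin 2 → ℂ) {d : ℕ} (F : MvPolynomial (Fin 3) ℂ)
    (hF : F.IsHomogeneous d) :
    frac (nuA i q) (X i) (dhT i q F) =
      (IsLocalization.Away.invSelf (S := Localization.Away (X i : MvPolynomial (Fin 3) ℂ))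
        (X i : MvPolynomial (Fin 3) ℂ)) ^ d *
      algebraMap (MvPolynomial (Fin 3) ℂ) (Localization.Away (X i : MvPolynomial (Fin 3) ℂ)) F := by
  set L := Localization.Away (X i : MvPolynomial (Fin 3) ℂ) with hL
  set v : L := IsLocalization.Away.invSelf (X i : MvPolynomial (Fin 3) ℂ) with hv
  have hXv : algebraMap (MvPolynomial (Fin 3) ℂ) L (X i) * v = 1 :=
    IsLocalization.Away.mul_invSelf _
  have h1 : frac (nuA i q) (X i) (dhT i q F) =
      aeval (fun l => v * algebraMap (MvPolynomial (Fin 3) ℂ) L (X l)) F := by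
    unfold frac dhT
    rw [← AlgHom.comp_apply, MvPolynomial.comp_aeval]
    congr 2
    funext l
    refine Fin.succAboveCases i ?_ (fun t => ?_) l
    · rw [Fin.insertNth_apply_same, map_one, mul_comm, hXv]
    · rw [Fin.insertNth_apply_succAbove, map_add, aeval_X, aeval_C, nuA, map_sub, map_mul]
      have h2 : algebraMap ℂ L (q t) = algebraMap (MvPolynomial (Fin 3) ℂ) L (C (q t)) := rfl
      rw [h2]
      linear_combination (-(algebraMap (MvPolynomial (Fin 3) ℂ) L (C (q t)))) * hXv
  rw [h1]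
  have hT : HT (Finset.univ : Finset (Fin 3)) F d := ht_univ hF
  have h3 := aeval_HT hT (fun l => algebraMap (MvPolynomial (Fin 3) ℂ) L (X l)) v
  simp only [Finset.mem_univ, if_true] at h3
  rw [h3]
  congr 1
  have h4 : aeval (fun l => algebraMap (MvPolynomial (Fin 3) ℂ) L (X l)) =
      (Algebra.ofId (MvPolynomial (Fin 3) ℂ) L).restrictScalars ℂ := by
    apply MvPolynomial.algHom_ext
    intro l
    rw [aeval_X]
    rfl
  rw [h4]
  rfl

lemma same_dhT {r : ℕ} (f : Fin r → MvPolynomial (Fin 3) ℂ) {d : ℕ}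
    (hf : ∀ j, (f j).IsHomogeneous d) (i : Fin 3) (q : Fin 2 → ℂ) :
    Same f (fun j => dhT i q (f j)) (nuA i q) (X i) := by
  unfold Same
  set L := Localization.Away (X i : MvPolynomial (Fin 3) ℂ) with hL
  set v : L := IsLocalization.Away.invSelf (X i : MvPolynomial (Fin 3) ℂ) with hv
  have hXv : algebraMap (MvPolynomial (Fin 3) ℂ) L (X i) * v = 1 :=
    IsLocalization.Away.mul_invSelf _
  have h1 : ∀ j, frac (nuA i q) (X i) (dhT i q (f j)) =
      v ^ d * algebraMap (MvPolynomial (Fin 3) ℂ) L (f j) := fun j => frac_dhT i q (f j) (hf j)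
  refine le_antisymm ?_ ?_
  · rw [Ideal.span_le]
    rintro _ ⟨j, rfl⟩
    have h2 : algebraMap (MvPolynomial (Fin 3) ℂ) L (f j) =
        (algebraMap (MvPolynomial (Fin 3) ℂ) L (X i)) ^ d *
          frac (nuA i q) (X i) (dhT i q (f j)) := by
      rw [h1, ← mul_assoc, ← mul_pow, hXv, one_pow, one_mul]
    rw [SetLike.mem_coe]
    simp only
    rw [h2]
    exact Ideal.mul_mem_left _ _ (Ideal.subset_span ⟨j, rfl⟩)
  · rw [Ideal.span_le]
    rintro _ ⟨j, rfl⟩
    rw [SetLike.mem_coe]
    simp only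
    rw [h1]
    exact Ideal.mul_mem_left _ _ (Ideal.subset_span ⟨j, rfl⟩)

lemma dhT_ne (i : Fin 3) (q : Fin 2 → ℂ) {d : ℕ} (F : MvPolynomial (Fin 3) ℂ)
    (hF : F.IsHomogeneous d) (h : F ≠ 0) : dhT i q F ≠ 0 := by
  intro h0
  have h1 := frac_dhT i q F hF
  rw [h0] at h1
  unfold frac at h1
  rw [map_zero] at h1
  set L := Localization.Away (X i : MvPolynomial (Fin 3) ℂ) with hL
  set v : L := IsLocalization.Away.invSelf (X i : MvPolynomial (Fin 3) ℂ) with hv
  have hXv : algebraMap (MvPolynomial (Fin 3) ℂ) L (X i) * v = 1 :=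
    IsLocalization.Away.mul_invSelf _
  have h2 : algebraMap (MvPolynomial (Fin 3) ℂ) L F = 0 := by
    have h3 : algebraMap (MvPolynomial (Fin 3) ℂ) L F =
        (algebraMap (MvPolynomial (Fin 3) ℂ) L (X i)) ^ d *
          (v ^ d * algebraMap (MvPolynomial (Fin 3) ℂ) L F) := by
      rw [← mul_assoc, ← mul_pow, hXv, one_pow, one_mul]
    rw [h3, ← h1, mul_zero]
  apply h
  have h4 : Function.Injective (algebraMap (MvPolynomial (Fin 3) ℂ) L) :=
    IsLocalization.injective L (M := Submonoid.powers (X i : MvPolynomial (Fin 3) ℂ))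
      (powers_le_nonZeroDivisors_of_noZeroDivisors (X_ne_zero i))
  exact (map_eq_zero_iff _ h4).1 h2

/-- roots of the charts are roots at the origin -/
theorem sf_form {r : ℕ} (f : Fin r → MvPolynomial (Fin 3) ℂ) {d : ℕ}
    (hf : ∀ j, (f j).IsHomogeneous d) (hne : ∃ j, f j ≠ 0) (i : Fin 3) (P : Fin 3 → ℂ)
    (hP : P i ≠ 0) (α : ℂ)
    (h : SF (fun j => dhT i (fun t => P (i.succAbove t) / P i) (f j)) 0 α) : SF f 0 α := by
  classical
  set q : Fin 2 → ℂ := fun t => P (i.succAbove t) / P i with hq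
  have hne' : ∃ j, dhT i q (f j) ≠ 0 := by
    obtain ⟨j, hj⟩ := hne
    exact ⟨j, dhT_ne i q (f j) (hf j) hj⟩
  have hT : Transf f (fun j => dhT i q (f j)) P := by
    refine transfer_chart f (fun j => dhT i q (f j)) (nuA i q) i.succAbove (X i) P ?_
      (same_dhT f hf i q) (fun t => ?_) ?_
    · rw [eval_X]; exact hP
    · rw [nuA, map_sub, map_mul, eval_X, eval_X, eval_C, hq]
      simp only
      rw [div_mul_cancel₀ _ hP, sub_self]
    · have h1 : (Matrix.of fun u t : Fin 2 => eval P (pderiv (i.succAbove u) (nuA i q t))) = 1 := by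
        ext u t
        rw [Matrix.of_apply, nuA, map_sub, pderiv_C_mul, pderiv_X_of_ne (Fin.succAbove_ne i u).symm,
          mul_zero, sub_zero, pderiv_X, Matrix.one_apply]
        by_cases hut : u = t
        · rw [if_pos hut, hut, Pi.single_eq_same, map_one]
        · rw [if_neg hut, Pi.single_eq_of_ne, map_zero]
          exact fun h => hut (Fin.succAbove_right_injective h).symm
      rw [h1, Matrix.det_one]
      exact one_ne_zero
  exact sf_cone_pts Finset.univ f d (fun j => ht_univ (hf j)) (fun j => dhT i q (f j)) P hT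
    (fun l hl => absurd (Finset.mem_univ l) hl) hne' α ((sf_iff _ hne' α).1 h)

end roots

section main

variable {p : ℕ} [Fact p.Prime]

/-- the coordinates near `P` -/
noncomputable def gC (i : Fin 3) (P : Fin 3 → ℚ_[p]) (t : Fin 2) (x : Fin 3 → ℚ_[p]) : ℚ_[p] :=
  x (i.succAbove t) * (x i)⁻¹ - P (i.succAbove t) / P i

/-- their derivatives at `P` -/
noncomputable def gL (i : Fin 3) (P : Fin 3 → ℚ_[p]) (t : Fin 2) : (Fin 3 → ℚ_[p]) →L[ℚ_[p]] ℚ_[p] :=
  P (i.succAbove t) • ((-(P i ^ 2)⁻¹) •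
    (ContinuousLinearMap.proj i : (Fin 3 → ℚ_[p]) →L[ℚ_[p]] ℚ_[p])) +
  (P i)⁻¹ • (ContinuousLinearMap.proj (i.succAbove t) : (Fin 3 → ℚ_[p]) →L[ℚ_[p]] ℚ_[p])

lemma gC_deriv (i : Fin 3) (P : Fin 3 → ℚ_[p]) (hP : P i ≠ 0) (t : Fin 2) :
    HasStrictFDerivAt (gC i P t) (gL i P t) P := by
  have h1 : HasStrictFDerivAt (fun x : Fin 3 → ℚ_[p] => x (i.succAbove t))
      (ContinuousLinearMap.proj (i.succAbove t) : (Fin 3 → ℚ_[p]) →L[ℚ_[p]] ℚ_[p]) P :=
    hasStrictFDerivAt_apply _ _
  have h2 : HasStrictFDerivAt (fun x : Fin 3 → ℚ_[p] => x i)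
      (ContinuousLinearMap.proj i : (Fin 3 → ℚ_[p]) →L[ℚ_[p]] ℚ_[p]) P :=
    hasStrictFDerivAt_apply _ _
  have h3 : HasStrictFDerivAt (fun x : Fin 3 → ℚ_[p] => (x i)⁻¹)
      ((-(P i ^ 2)⁻¹) • (ContinuousLinearMap.proj i : (Fin 3 → ℚ_[p]) →L[ℚ_[p]] ℚ_[p])) P :=
    (hasStrictDerivAt_inv hP).comp_hasStrictFDerivAt P h2
  exact (h1.mul h3).sub_const _

lemma gL_det (i : Fin 3) (P : Fin 3 → ℚ_[p]) (hP : P i ≠ 0) :
    (Matrix.of fun u t : Fin 2 => gL i P t (Pi.single (i.succAbove u) 1)).det ≠ 0 := by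
  have h1 : (Matrix.of fun u t : Fin 2 => gL i P t (Pi.single (i.succAbove u) 1)) =
      (P i)⁻¹ • (1 : Matrix (Fin 2) (Fin 2) ℚ_[p]) := by
    ext u t
    rw [Matrix.of_apply, gL, Matrix.smul_apply, Matrix.one_apply]
    simp only [ContinuousLinearMap.add_apply, ContinuousLinearMap.smul_apply,
      ContinuousLinearMap.proj_apply, smul_eq_mul]
    rw [Pi.single_eq_of_ne (Fin.succAbove_ne i u).symm, mul_zero, mul_zero, zero_add]
    congr 1
    by_cases hut : u = t
    · rw [if_pos hut, hut, Pi.single_eq_same]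
    · rw [if_neg hut, Pi.single_eq_of_ne]
      exact fun h => hut (Fin.succAbove_right_injective h).symm
  rw [h1, Matrix.det_smul, Matrix.det_one, mul_one]
  exact pow_ne_zero _ (inv_ne_zero hP)

lemma norm_near (i : Fin 3) (P : Fin 3 → ℚ_[p]) (hP : P i ≠ 0) :
    ∀ᶠ x : Fin 3 → ℚ_[p] in 𝓝 P, ‖x i‖ = ‖P i‖ := by
  have h1 : ∀ᶠ x : Fin 3 → ℚ_[p] in 𝓝 P, ‖x i - P i‖ < ‖P i‖ := by
    have hc : Continuous (fun x : Fin 3 → ℚ_[p] => ‖x i - P i‖) :=
      ((continuous_apply i).sub continuous_const).norm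
    refine (hc.tendsto P).eventually_lt_const ?_
    simpa using hP
  refine h1.mono fun x hx => ?_
  have h2 : x i = P i + (x i - P i) := by ring
  rw [h2, IsUltrametricDist.norm_add_eq_max_of_norm_ne_norm hx.ne']
  exact max_eq_left hx.le

theorem norm_smul' {ι : Type} [Fintype ι] (a : ℚ_[p]) (z : ι → ℚ_[p]) :
    ‖(fun j => a * z j)‖ = ‖a‖ * ‖z‖ := by
  have h : (fun j => a * z j) = a • z := rfl
  rw [h, norm_smul]

theorem qp_form3 : StCone → StUnit → StScale → StPlane → StDiff → StEval → StForm3 := by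
  intro hCone hUnit hScale hPlane hDiff _ p _ φ r f d hd hne hf hroot
  classical
  have hS := siz_nrm f
  refine hCone p Finset.univ ⟨0, Finset.mem_univ _⟩ d hd (nrm f) hS (fun a x => ?_)
    (mS φ f 0) (mS φ f 0) (fun T0 hT0 => ?_) fun P hP0 _ => ?_
  · simp only [Finset.mem_univ, if_true]
    unfold nrm
    simp only [eval_hom _ d (hf _)]
    rw [norm_smul', norm_pow]
  · by_cases h : T0 ^ d = (p : ℂ) ^ (Finset.univ : Finset (Fin 3)).card
    · have h1 : mS φ f 0 T0 = ⊤ := by
        unfold mS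
        rw [if_pos]
        have h2 : T0 ^ d = (p : ℂ) ^ (2 + 1) := by
          rw [h, Finset.card_univ, Fintype.card_fin]
        rw [rr_cone 2 d hd T0 h2]
        have h3 : (fun i : Fin 3 => φ ((0 : Fin 3 → ℚ_[p]) i)) = 0 := by
          funext i
          exact map_zero φ
        rw [h3]
        have h4 : (-(((2 : ℕ) : ℂ) + 1) / (d : ℂ)) = -3 / (d : ℂ) := by
          norm_num
        rw [h4]
        exact hroot
      rw [h1]
      exact le_top
    · rw [if_neg h, zero_add]
  · by_cases hz : nrm f P = 0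
    · obtain ⟨i, hi⟩ : ∃ i, P i ≠ 0 := by
        by_contra hcon
        push Not at hcon
        exact hP0 (funext hcon)
      set q : Fin 2 → ℚ_[p] := fun t => P (i.succAbove t) / P i with hq
      set h : Fin r → MvPolynomial (Fin 2) ℚ_[p] := fun j => dhT i q (f j) with hh
      have hmap : (fun j => map φ (h j)) = fun j => dhT i (fun t => φ (q t)) (map φ (f j)) := by
        funext j
        exact map_dhT φ i q (f j)
      have hfm : ∀ j, (map φ (f j)).IsHomogeneous d := fun j => (hf j).map φ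
      have hnem : ∃ j, map φ (f j) ≠ 0 := by
        obtain ⟨j, hj⟩ := hne
        exact ⟨j, fun h0 => hj ((map_eq_zero_iff _ (map_injective φ φ.injective)).1 h0)⟩
      have hnh : ∃ j, h j ≠ 0 := by
        obtain ⟨j, hj⟩ := hnem
        refine ⟨j, fun h0 => dhT_ne i (fun t => φ (q t)) (map φ (f j)) (hfm j) hj ?_⟩
        rw [← map_dhT φ i q (f j)]
        have : dhT i q (f j) = 0 := h0
        rw [this, map_zero]
      have hL0 := hPlane p φ h hnh 0
      have hzero : (fun i : Fin 3 => φ ((0 : Fin 3 → ℚ_[p]) i)) = 0 := by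
        funext i
        exact map_zero φ
      have hzero2 : (fun i : Fin 2 => φ ((0 : Fin 2 → ℚ_[p]) i)) = 0 := by
        funext i
        exact map_zero φ
      have hm : ∀ T, 1 < ‖T‖ → mS φ h 0 T ≤ mS φ f 0 T := by
        intro T _
        unfold mS
        rw [hzero, hzero2, hmap]
        by_cases hs : SF (fun j => dhT i (fun t => φ (q t)) (map φ (f j))) 0 ((rr p T : ℝ) : ℂ)
        · rw [if_pos hs, if_pos]
          have hq' : (fun t => φ (q t)) = fun t => (fun l => φ (P l)) (i.succAbove t) /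
              (fun l => φ (P l)) i := by
            funext t
            simp only [hq]
            rw [map_div₀]
          rw [hq'] at hs
          exact sf_form (fun j => map φ (f j)) hfm hnem i (fun l => φ (P l))
            ((map_ne_zero φ).2 hi) _ hs
        · rw [if_neg hs]
          exact bot_le
      have hL1 : LP (mS φ f 0) (nrm h) 0 := LP.mono' hm hL0
      have ha : P i ^ d ≠ 0 := pow_ne_zero _ hi
      have hL2 := hScale p (nrm h) (siz_nrm h) (mS φ f 0) 0 (P i ^ d) ha hL1
      have hg0 : (fun t => gC i P t P) = 0 := by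
        funext t
        unfold gC
        rw [div_eq_mul_inv, sub_self]
        rfl
      refine hDiff p 2 (gC i P) (gL i P) i.succAbove (nrm f) (fun y => ‖P i ^ d‖ * nrm h y) P
        (mS φ f 0) (siz_smul (siz_nrm h) _) (gC_deriv i P hi) (gL_det i P hi) ?_ ?_
      · refine (norm_near i P hi).mono fun x hx => ?_
        have hxi : x i ≠ 0 := by
          intro h0
          rw [h0, norm_zero] at hx
          exact hi (norm_eq_zero.1 hx.symm)
        have h1 : ∀ j, eval x (f j) = x i ^ d * eval (fun t => gC i P t x) (h j) := by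
          intro j
          rw [hh]
          simp only
          rw [eval_dhT, ← eval_hom (f j) d (hf j)]
          refine congrArg (fun z : Fin 3 → ℚ_[p] => eval z (f j)) ?_
          funext l
          refine Fin.succAboveCases i ?_ (fun t => ?_) l
          · rw [Fin.insertNth_apply_same, mul_one]
          · rw [Fin.insertNth_apply_succAbove]
            unfold gC
            rw [hq]
            simp only
            rw [sub_add_cancel, mul_comm (x (i.succAbove t)), ← mul_assoc, mul_inv_cancel₀ hxi,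
              one_mul]
        unfold nrm
        simp only [h1]
        rw [norm_smul', norm_pow, norm_pow, hx]
      · rw [hg0]
        exact hL2
    · exact hUnit p (nrm f) hS _ P hz

end main

end Pool.Agent.Q247.QP
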