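import Pool.Agent.Q57.QP.Stm

set_option autoImplicit false

/-! # Project QP, jobs MUL: functions of disjoint sets of variables -/

namespace Pool.Agent.Q247.QP

open MeasureTheory MvPolynomial Topology
open Pool.Agent.W427.SMC Pool.Agent.Y230.PT Pool.Agent.Y230.PS
open Pool.Agent.Q57.QP
open scoped ENNReal

attribute [local instance] msK bsK msZ bsZ

variable {p : ℕ} [Fact p.Prime]

instance sfE {σ : Type} [Fintype σ] : SigmaFinite (muE p σ) := by
  unfold muE; infer_instance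

instance haE {σ : Type} [Fintype σ] : (muE p σ).IsAddHaarMeasure := by
  unfold muE; infer_instance

lemma lint_append {n n' : ℕ} (F : (Fin n → ℚ_[p]) × (Fin n' → ℚ_[p]) → ℝ≥0∞) (hF : Measurable F) :
    ∫⁻ x, F (fun i => x (Fin.castAdd n' i), fun i => x (Fin.natAdd n i)) ∂(muE p (Fin (n + n'))) =
      ∫⁻ z, F z ∂((muE p (Fin n)).prod (muE p (Fin n'))) := by
  have hG : Measurable (fun x : Fin (n + n') → ℚ_[p] =>
      F (fun i => x (Fin.castAdd n' i), fun i => x (Fin.natAdd n i))) := by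
    refine hF.comp (Measurable.prodMk ?_ ?_)
    · exact measurable_pi_lambda _ fun i => measurable_pi_apply _
    · exact measurable_pi_lambda _ fun i => measurable_pi_apply _
  have h1 := (measurePreserving_piCongrLeft (fun _ : Fin (n + n') => Pool.Agent.Y230.PT.nu p)
    (finSumFinEquiv (m := n) (n := n'))).lintegral_comp hG
  have h2 := (measurePreserving_sumPiEquivProdPi (X := fun _ : Fin n ⊕ Fin n' => ℚ_[p])
    (fun _ : Fin n ⊕ Fin n' => Pool.Agent.Y230.PT.nu p)).lintegral_comp hF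
  unfold muE
  rw [← h1, ← h2]
  refine lintegral_congr fun x => ?_
  congr 2
  · funext i
    exact Equiv.piCongrLeft_apply_apply (fun _ : Fin (n + n') => ℚ_[p]) finSumFinEquiv x
      (Sum.inl i)
  · funext i
    exact Equiv.piCongrLeft_apply_apply (fun _ : Fin (n + n') => ℚ_[p]) finSumFinEquiv x
      (Sum.inr i)

lemma ball_append {n n' : ℕ} (a x : Fin (n + n') → ℚ_[p]) {r : ℝ} (hr : 0 ≤ r) :
    x ∈ Metric.closedBall a r ↔
      (fun i => x (Fin.castAdd n' i)) ∈ Metric.closedBall (fun i => a (Fin.castAdd n' i)) r ∧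
      (fun i => x (Fin.natAdd n i)) ∈ Metric.closedBall (fun i => a (Fin.natAdd n i)) r := by
  simp only [Metric.mem_closedBall, dist_pi_le_iff hr]
  constructor
  · intro h
    exact ⟨fun i => h _, fun i => h _⟩
  · rintro ⟨h1, h2⟩ i
    refine Fin.addCases (fun i => h1 i) (fun i => h2 i) i

/-- the integral over a ball of a function of the two groups of variables -/
lemma IZ_append {n n' : ℕ} (H : (Fin n → ℚ_[p]) × (Fin n' → ℚ_[p]) → ℝ) (hH : Measurable H)
    (a : Fin (n + n') → ℚ_[p]) {r : ℝ} (hr : 0 ≤ r) (s : ℝ) :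
    IZ (fun x : Fin (n + n') → ℚ_[p] =>
      H (fun i => x (Fin.castAdd n' i), fun i => x (Fin.natAdd n i))) (Metric.closedBall a r) s =
    ((∫⁻ z in (Metric.closedBall (fun i => a (Fin.castAdd n' i)) r) ×ˢ
      (Metric.closedBall (fun i => a (Fin.natAdd n i)) r), ENNReal.ofReal (H z ^ s)
        ∂((muE p (Fin n)).prod (muE p (Fin n')))).toReal : ℂ) := by
  unfold IZ
  congr 2
  have hB : MeasurableSet (Metric.closedBall a r) := Metric.isClosed_closedBall.measurableSet
  have hB2 : MeasurableSet ((Metric.closedBall (fun i => a (Fin.castAdd n' i)) r) ×ˢ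
      (Metric.closedBall (fun i => a (Fin.natAdd n i)) r)) :=
    Metric.isClosed_closedBall.measurableSet.prod Metric.isClosed_closedBall.measurableSet
  rw [← lintegral_indicator hB, ← lintegral_indicator hB2, ← lint_append]
  · refine lintegral_congr fun x => ?_
    by_cases hx : x ∈ Metric.closedBall a r
    · rw [Set.indicator_of_mem hx, Set.indicator_of_mem]
      exact (ball_append a x hr).1 hx
    · rw [Set.indicator_of_notMem hx, Set.indicator_of_notMem]
      exact fun h => hx ((ball_append a x hr).2 h)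
  · exact (ENNReal.measurable_ofReal.comp (hH.pow_const s)).indicator hB2

lemma siz_nonneg {σ : Type} {h : (σ → ℚ_[p]) → ℝ} (hh : Siz h) (x : σ → ℚ_[p]) : 0 ≤ h x := by
  rcases hh.val x with h0 | ⟨k, hk⟩
  · rw [h0]
  · rw [hk]
    exact zpow_nonneg (by positivity) _

/-- the two open sets and a ball in their product -/
lemma ball_parts {n n' : ℕ} {U1 : Set (Fin n → ℚ_[p])} {U2 : Set (Fin n' → ℚ_[p])}
    (a : Fin (n + n') → ℚ_[p]) {r : ℝ} (hr : 0 ≤ r)
    (h : Metric.closedBall a r ⊆ {x | (fun i => x (Fin.castAdd n' i)) ∈ U1 ∧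
      (fun i => x (Fin.natAdd n i)) ∈ U2}) :
    Metric.closedBall (fun i => a (Fin.castAdd n' i)) r ⊆ U1 ∧
    Metric.closedBall (fun i => a (Fin.natAdd n i)) r ⊆ U2 := by
  constructor
  · intro u hu
    have h1 : Fin.append u (fun i => a (Fin.natAdd n i)) ∈ Metric.closedBall a r := by
      rw [ball_append a _ hr]
      simp only [Fin.append_left, Fin.append_right]
      exact ⟨hu, Metric.mem_closedBall_self hr⟩
    have h2 := (h h1).1
    simpa only [Fin.append_left] using h2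
  · intro u hu
    have h1 : Fin.append (fun i => a (Fin.castAdd n' i)) u ∈ Metric.closedBall a r := by
      rw [ball_append a _ hr]
      simp only [Fin.append_left, Fin.append_right]
      exact ⟨Metric.mem_closedBall_self hr, hu⟩
    have h2 := (h h1).2
    simpa only [Fin.append_right] using h2

lemma open_parts {n n' : ℕ} {U1 : Set (Fin n → ℚ_[p])} {U2 : Set (Fin n' → ℚ_[p])}
    (h1 : IsOpen U1) (h2 : IsOpen U2) :
    IsOpen {x : Fin (n + n') → ℚ_[p] | (fun i => x (Fin.castAdd n' i)) ∈ U1 ∧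
      (fun i => x (Fin.natAdd n i)) ∈ U2} := by
  refine (h1.preimage ?_).inter (h2.preimage ?_)
  · exact continuous_pi fun i => continuous_apply _
  · exact continuous_pi fun i => continuous_apply _

lemma cball_CO {σ : Type} [Fintype σ] (a : σ → ℚ_[p]) {r : ℝ} (hr : 0 < r) :
    CO (Metric.closedBall a r) :=
  ⟨isCompact_closedBall _ _, IsUltrametricDist.isOpen_closedBall _ hr.ne'⟩

lemma zp (p : ℕ) [Fact p.Prime] (k : ℤ) : (0 : ℝ) < (p : ℝ) ^ k :=
  zpow_pos (by exact_mod_cast (Fact.out : p.Prime).pos) _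

theorem qp_mul : StBall → StMul := by
  intro hball p _ n n' h1 h2 P m1 m2 m3 hs1 hs2 hm L1 L2
  obtain ⟨U1, hU1, hP1, hF1⟩ := L1
  obtain ⟨U2, hU2, hP2, hF2⟩ := L2
  have c1 : Continuous (fun x : Fin (n + n') → ℚ_[p] => h1 (fun i => x (Fin.castAdd n' i))) :=
    hs1.cont.comp (continuous_pi fun i => continuous_apply _)
  have c2 : Continuous (fun x : Fin (n + n') → ℚ_[p] => h2 (fun i => x (Fin.natAdd n i))) :=
    hs2.cont.comp (continuous_pi fun i => continuous_apply _)
  have hp : (p : ℝ) ≠ 0 := by exact_mod_cast (Fact.out : p.Prime).ne_zero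
  have hS : Siz (fun x : Fin (n + n') → ℚ_[p] =>
      h1 (fun i => x (Fin.castAdd n' i)) * h2 (fun i => x (Fin.natAdd n i))) := by
    refine ⟨c1.mul c2, fun x => ?_⟩
    rcases hs1.val (fun i => x (Fin.castAdd n' i)) with h0 | ⟨k, hk⟩
    · left; simp only [h0, zero_mul]
    · rcases hs2.val (fun i => x (Fin.natAdd n i)) with h0 | ⟨l, hl⟩
      · left; simp only [h0, mul_zero]
      · right
        exact ⟨k + l, by simp only [hk, hl]; rw [zpow_add₀ hp]⟩
  refine ⟨_, open_parts hU1 hU2, ⟨hP1, hP2⟩, hball p _ hS m3 _ (open_parts hU1 hU2)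
    fun a k hsub => ?_⟩
  have hr := zp p k
  obtain ⟨b1, b2⟩ := ball_parts a hr.le hsub
  have f1 := hF1 _ b1 (cball_CO _ hr)
  have f2 := hF2 _ b2 (cball_CO _ hr)
  refine (f1.mul f2 hm).congr fun s _ => ?_
  have hH : Measurable (fun z : (Fin n → ℚ_[p]) × (Fin n' → ℚ_[p]) => h1 z.1 * h2 z.2) :=
    (hs1.cont.measurable.comp measurable_fst).mul (hs2.cont.measurable.comp measurable_snd)
  rw [IZ_append (fun z => h1 z.1 * h2 z.2) hH a hr.le s, ← Measure.prod_restrict]
  unfold IZ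
  rw [← Complex.ofReal_mul, ← ENNReal.toReal_mul]
  congr 2
  have h3 := lintegral_prod_mul
    (μ := (muE p (Fin n)).restrict (Metric.closedBall (fun i => a (Fin.castAdd n' i)) ((p : ℝ) ^ k)))
    (ν := (muE p (Fin n')).restrict (Metric.closedBall (fun i => a (Fin.natAdd n i)) ((p : ℝ) ^ k)))
    (f := fun x => ENNReal.ofReal (h1 x ^ s)) (g := fun x => ENNReal.ofReal (h2 x ^ s))
    (ENNReal.measurable_ofReal.comp (hs1.cont.measurable.pow_const s)).aemeasurable
    (ENNReal.measurable_ofReal.comp (hs2.cont.measurable.pow_const s)).aemeasurable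
  rw [← h3]
  refine lintegral_congr fun z => ?_
  rw [Real.mul_rpow (siz_nonneg hs1 _) (siz_nonneg hs2 _), ENNReal.ofReal_mul (Real.rpow_nonneg
    (siz_nonneg hs1 _) _)]

/-- values of size functions on compact sets -/
lemma siz_val {σ : Type} [Fintype σ] {h : (σ → ℚ_[p]) → ℝ} (hh : Siz h) (B : Set (σ → ℚ_[p]))
    (hB : IsCompact B) : ∃ K : ℕ, ∀ K', K ≤ K' → ∀ x,
      Val p (((p : ℝ)⁻¹) ^ K' * B.indicator h x) := by
  have hp : (1 : ℝ) < p := by exact_mod_cast (Fact.out : p.Prime).one_lt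
  have hp0 : (0 : ℝ) < p := by linarith
  obtain ⟨b, hb⟩ := (hB.image hh.cont).bddAbove
  obtain ⟨K, hK⟩ := pow_unbounded_of_one_lt b hp
  refine ⟨K, fun K' hK' x => ?_⟩
  by_cases hx : x ∈ B
  · rw [Set.indicator_of_mem hx]
    rcases hh.val x with h0 | ⟨k, hk⟩
    · left; rw [h0, mul_zero]
    · right
      have h1 : h x ≤ b := hb ⟨x, hx, rfl⟩
      have h2 : (p : ℝ) ^ k < (p : ℝ) ^ ((K' : ℕ) : ℤ) := by
        rw [← hk, zpow_natCast]
        exact lt_of_le_of_lt h1 (hK.trans_le (pow_le_pow_right₀ hp.le hK'))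
      have h3 : k < (K' : ℤ) := (zpow_lt_zpow_iff_right₀ hp).1 h2
      refine ⟨((K' : ℤ) - k).toNat, ?_⟩
      rw [hk, ← zpow_natCast, ← zpow_natCast, Int.toNat_of_nonneg (by omega), inv_zpow', inv_zpow',
        ← zpow_add₀ hp0.ne']
      congr 1
      ring
  · left
    rw [Set.indicator_of_notMem hx, mul_zero]

/-- the normalized measure on a ball -/
noncomputable def nb {σ : Type} [Fintype σ] (B : Set (σ → ℚ_[p])) : Measure (σ → ℚ_[p]) :=
  (muE p σ B)⁻¹ • (muE p σ).restrict B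

lemma nb_prob {σ : Type} [Fintype σ] {B : Set (σ → ℚ_[p])} (h0 : muE p σ B ≠ 0)
    (h1 : muE p σ B ≠ ⊤) : IsProbabilityMeasure (nb B) := by
  refine ⟨?_⟩
  unfold nb
  rw [Measure.smul_apply, Measure.restrict_apply MeasurableSet.univ, Set.univ_inter, smul_eq_mul,
    ENNReal.inv_mul_cancel h0 h1]

lemma nb_FZ {σ : Type} [Fintype σ] {B : Set (σ → ℚ_[p])} (hB : MeasurableSet B)
    (h0 : muE p σ B ≠ 0) (h1 : muE p σ B ≠ ⊤) (h : (σ → ℚ_[p]) → ℝ) (s : ℝ) :
    (letI := nb_prob h0 h1; FZ (nb B) (B.indicator h) s) =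
      (((muE p σ B)⁻¹.toReal : ℝ) : ℂ) * IZ h B s := by
  unfold FZ IZ nb
  rw [← Complex.ofReal_mul, ← ENNReal.toReal_mul, lintegral_smul_measure, smul_eq_mul]
  congr 3
  refine setLIntegral_congr_fun hB fun x hx => ?_
  rw [Set.indicator_of_mem hx]

theorem qp_max : StBall → StMax := by
  intro hball p _ n n' h1 h2 P m1 m2 m3 hs1 hs2 hm L1 L2
  obtain ⟨U1, hU1, hP1, hF1⟩ := L1
  obtain ⟨U2, hU2, hP2, hF2⟩ := L2
  have c1 : Continuous (fun x : Fin (n + n') → ℚ_[p] => h1 (fun i => x (Fin.castAdd n' i))) :=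
    hs1.cont.comp (continuous_pi fun i => continuous_apply _)
  have c2 : Continuous (fun x : Fin (n + n') → ℚ_[p] => h2 (fun i => x (Fin.natAdd n i))) :=
    hs2.cont.comp (continuous_pi fun i => continuous_apply _)
  have hp : (p : ℝ) ≠ 0 := by exact_mod_cast (Fact.out : p.Prime).ne_zero
  have hpi : (0 : ℝ) < (p : ℝ)⁻¹ := inv_pos.2 (by exact_mod_cast (Fact.out : p.Prime).pos)
  have hS : Siz (fun x : Fin (n + n') → ℚ_[p] =>
      max (h1 (fun i => x (Fin.castAdd n' i))) (h2 (fun i => x (Fin.natAdd n i)))) := by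
    refine ⟨c1.max c2, fun x => ?_⟩
    rcases max_choice (h1 (fun i => x (Fin.castAdd n' i))) (h2 (fun i => x (Fin.natAdd n i)))
      with h | h
    · simp only [h]; exact hs1.val _
    · simp only [h]; exact hs2.val _
  refine ⟨_, open_parts hU1 hU2, ⟨hP1, hP2⟩, hball p _ hS m3 _ (open_parts hU1 hU2)
    fun a k hsub => ?_⟩
  have hr := zp p k
  obtain ⟨b1, b2⟩ := ball_parts a hr.le hsub
  have f1 := hF1 _ b1 (cball_CO _ hr)
  have f2 := hF2 _ b2 (cball_CO _ hr)
  set B1 := Metric.closedBall (fun i => a (Fin.castAdd n' i)) ((p : ℝ) ^ k) with hB1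
  set B2 := Metric.closedBall (fun i => a (Fin.natAdd n i)) ((p : ℝ) ^ k) with hB2
  have ms1 : MeasurableSet B1 := Metric.isClosed_closedBall.measurableSet
  have ms2 : MeasurableSet B2 := Metric.isClosed_closedBall.measurableSet
  have p1 : muE p (Fin n) B1 ≠ 0 := by
    refine ((cball_CO (fun i => a (Fin.castAdd n' i)) hr).2.measure_pos _ ?_).ne'
    exact ⟨_, Metric.mem_closedBall_self hr.le⟩
  have p2 : muE p (Fin n') B2 ≠ 0 := by
    refine ((cball_CO (fun i => a (Fin.natAdd n i)) hr).2.measure_pos _ ?_).ne'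
    exact ⟨_, Metric.mem_closedBall_self hr.le⟩
  have t1 : muE p (Fin n) B1 ≠ ⊤ := (cball_CO (fun i => a (Fin.castAdd n' i)) hr).1.measure_ne_top
  have t2 : muE p (Fin n') B2 ≠ ⊤ := (cball_CO (fun i => a (Fin.natAdd n i)) hr).1.measure_ne_top
  haveI q1 := nb_prob p1 t1
  haveI q2 := nb_prob p2 t2
  have g1 : FR p m1 (FZ (nb B1) (B1.indicator h1)) := by
    refine (FR.mul0 (fun T0 hT0 => Reg.const (((muE p (Fin n) B1)⁻¹.toReal : ℝ) : ℂ)) f1).congr
      fun s _ => ?_
    exact (nb_FZ ms1 p1 t1 h1 s).symm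
  have g2 : FR p m2 (FZ (nb B2) (B2.indicator h2)) := by
    refine (FR.mul0 (fun T0 hT0 => Reg.const (((muE p (Fin n') B2)⁻¹.toReal : ℝ) : ℂ)) f2).congr
      fun s _ => ?_
    exact (nb_FZ ms2 p2 t2 h2 s).symm
  obtain ⟨K1, hK1⟩ := siz_val hs1 B1 (isCompact_closedBall _ _)
  obtain ⟨K2, hK2⟩ := siz_val hs2 B2 (isCompact_closedBall _ _)
  set K := max K1 K2 with hK
  have n1 : ∀ x, 0 ≤ B1.indicator h1 x := fun x => Set.indicator_nonneg (fun x _ => siz_nonneg hs1 x) x
  have n2 : ∀ x, 0 ≤ B2.indicator h2 x := fun x => Set.indicator_nonneg (fun x _ => siz_nonneg hs2 x) x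
  have h3 := (FR_scale (p := p) (nb B1) (B1.indicator h1) (m := m1) n1 K).2 g1
  have h4 := (FR_scale (p := p) (nb B2) (B2.indicator h2) (m := m2) n2 K).2 g2
  have e1 : Measurable (B1.indicator h1) := hs1.cont.measurable.indicator ms1
  have e2 : Measurable (B2.indicator h2) := hs2.cont.measurable.indicator ms2
  have h5 := FR_max (p := p) (nb B1) (fun x => ((p : ℝ)⁻¹) ^ K * B1.indicator h1 x)
    (nb B2) (fun x => ((p : ℝ)⁻¹) ^ K * B2.indicator h2 x)
    (e1.const_mul _) (hK1 K (le_max_left _ _)) (e2.const_mul _)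
    (hK2 K (le_max_right _ _)) m1 m2 m3 hm h3 h4
  have h6 : FR p m3 (FZ ((nb B1).prod (nb B2))
      (fun z => ((p : ℝ)⁻¹) ^ K * max (B1.indicator h1 z.1) (B2.indicator h2 z.2))) := by
    refine h5.congr fun s _ => ?_
    congr 1
    funext z
    rw [mul_max_of_nonneg _ _ (pow_nonneg hpi.le K)]
  have h7 := (FR_scale (p := p) ((nb B1).prod (nb B2))
    (fun z => max (B1.indicator h1 z.1) (B2.indicator h2 z.2)) (m := m3)
    (fun z => le_max_of_le_left (n1 _)) K).1 h6
  refine (FR.mul0 (fun T0 hT0 => Reg.const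
    (((muE p (Fin n) B1 * muE p (Fin n') B2).toReal : ℝ) : ℂ)) h7).congr fun s _ => ?_
  have hH : Measurable (fun z : (Fin n → ℚ_[p]) × (Fin n' → ℚ_[p]) => max (h1 z.1) (h2 z.2)) :=
    (hs1.cont.measurable.comp measurable_fst).max (hs2.cont.measurable.comp measurable_snd)
  rw [IZ_append (fun z => max (h1 z.1) (h2 z.2)) hH a hr.le s]
  unfold FZ
  rw [← Complex.ofReal_mul, ← ENNReal.toReal_mul]
  congr 2
  have h8 : (nb B1).prod (nb B2) = ((muE p (Fin n) B1)⁻¹ * (muE p (Fin n') B2)⁻¹) •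
      ((muE p (Fin n)).prod (muE p (Fin n'))).restrict (B1 ×ˢ B2) := by
    unfold nb
    rw [← Measure.prod_restrict, Measure.prod_smul_left, Measure.prod_smul_right, smul_smul]
  rw [h8, lintegral_smul_measure, smul_eq_mul, ← mul_assoc]
  have h9 : muE p (Fin n) B1 * muE p (Fin n') B2 *
      ((muE p (Fin n) B1)⁻¹ * (muE p (Fin n') B2)⁻¹) = 1 := by
    rw [mul_mul_mul_comm, ENNReal.mul_inv_cancel p1 t1, ENNReal.mul_inv_cancel p2 t2, one_mul]
  rw [h9, one_mul]
  refine setLIntegral_congr_fun (ms1.prod ms2) fun z hz => ?_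
  simp only [Set.indicator_of_mem hz.1, Set.indicator_of_mem hz.2]

end Pool.Agent.Q247.QP
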