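import Pool.Agent.Q247.QP.Form3J

set_option autoImplicit false

/-! # Project QP, job SMOOTH: smooth points of a surface of degree two -/

namespace Pool.Agent.Q247.QP

open MeasureTheory MvPolynomial Topology
open Pool.Agent.W427.SMC Pool.Agent.Y230.PT Pool.Agent.Y230.PS
open Pool.Agent.Y229 (SF IsLocalBI)
open Pool.Agent.Q57.QP
open scoped ENNReal

attribute [local instance] msK bsK msZ bsZ

section poly

variable {K : Type} [Field K]

lemma cc_pderiv {σ : Type} [DecidableEq σ] (i : σ) (F : MvPolynomial σ K) :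
    eval 0 (pderiv i F) = coeff (Finsupp.single i 1) F := by
  have h1 : eval (0 : σ → K) (pderiv i F) = constantCoeff (pderiv i F) := by
    rw [constantCoeff_eq, ← MvPolynomial.constantCoeff_eq]
    exact congrFun (congrArg DFunLike.coe MvPolynomial.eval_zero) _
  rw [h1, constantCoeff_eq, coeff_pderiv]
  simp

/-- the affine change of coordinates -/
noncomputable def shP {K : Type} [Field K] (P : Fin 3 → K) (τ : Equiv.Perm (Fin 3))
    (F : MvPolynomial (Fin 3) K) : MvPolynomial (Fin 3) K :=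
  aeval (fun a => C (P a) + X (τ a) : Fin 3 → MvPolynomial (Fin 3) K) F

lemma shP_eval (P : Fin 3 → K) (τ : Equiv.Perm (Fin 3)) (F : MvPolynomial (Fin 3) K) :
    eval 0 (shP P τ F) = eval P F := by
  unfold shP
  rw [MvPolynomial.aeval_def, MvPolynomial.eval_eval₂]
  congr 1
  · ext; simp
  · funext a
    simp

lemma shP_pderiv (P : Fin 3 → K) (τ : Equiv.Perm (Fin 3)) (k : Fin 3)
    (F : MvPolynomial (Fin 3) K) : pderiv k (shP P τ F) = shP P τ (pderiv (τ.symm k) F) := by
  classical
  induction F using MvPolynomial.induction_on with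
  | C a =>
    unfold shP
    rw [aeval_C, pderiv_C, map_zero]
    exact pderiv_C
  | add F G hF hG =>
    unfold shP at hF hG ⊢
    simp only [map_add, hF, hG]
  | mul_X F a hF =>
    unfold shP at hF ⊢
    simp only [map_mul, Derivation.leibniz, hF, map_add, aeval_X, smul_eq_mul, pderiv_C, zero_add,
      pderiv_X]
    congr 1
    congr 1
    by_cases h : τ a = k
    · subst h
      rw [Equiv.symm_apply_apply, Pi.single_eq_same, Pi.single_eq_same, map_one]
    · rw [Pi.single_eq_of_ne h, Pi.single_eq_of_ne, map_zero]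
      rintro rfl
      exact h (Equiv.apply_symm_apply _ _)

lemma aeval_deg (g : Fin 3 → MvPolynomial (Fin 3) K) (hg : ∀ a, (g a).totalDegree ≤ 1)
    (F : MvPolynomial (Fin 3) K) : (aeval g F).totalDegree ≤ F.totalDegree := by
  rw [MvPolynomial.aeval_def, MvPolynomial.eval₂_eq]
  refine totalDegree_finsetSum_le fun m hm => ?_
  refine (totalDegree_mul _ _).trans ?_
  rw [MvPolynomial.algebraMap_eq, totalDegree_C, zero_add]
  refine (totalDegree_finset_prod _ _).trans ?_
  refine le_trans (Finset.sum_le_sum (g := fun a => m a) fun a _ => ?_) (le_totalDegree hm)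
  refine (totalDegree_pow _ _).trans ?_
  calc m a * (g a).totalDegree ≤ m a * 1 := Nat.mul_le_mul_left _ (hg a)
    _ = m a := mul_one _

lemma shP_deg (P : Fin 3 → K) (τ : Equiv.Perm (Fin 3)) (F : MvPolynomial (Fin 3) K) :
    (shP P τ F).totalDegree ≤ F.totalDegree := by
  refine aeval_deg _ (fun a => ?_) F
  refine (totalDegree_add _ _).trans (max_le ?_ ?_)
  · rw [totalDegree_C]; exact Nat.zero_le _
  · rw [totalDegree_X]

end poly

section core

variable {p : ℕ} [Fact p.Prime]

/-- the derivative of `x_0 / (1 + ρ x_2)`, `x_1 / (1 + ρ x_2)` at the origin -/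
lemma chart_deriv (ρ : ℚ_[p]) (l : Fin 3) :
    HasStrictFDerivAt (fun y : Fin 3 → ℚ_[p] => y l * (1 + ρ * y 2)⁻¹)
      (ContinuousLinearMap.proj l : (Fin 3 → ℚ_[p]) →L[ℚ_[p]] ℚ_[p]) 0 := by
  have h1 : HasStrictFDerivAt (fun x : Fin 3 → ℚ_[p] => x l)
      (ContinuousLinearMap.proj l : (Fin 3 → ℚ_[p]) →L[ℚ_[p]] ℚ_[p]) 0 :=
    hasStrictFDerivAt_apply _ _
  have h2 : HasStrictFDerivAt (fun x : Fin 3 → ℚ_[p] => 1 + ρ * x 2)
      (ρ • (ContinuousLinearMap.proj 2 : (Fin 3 → ℚ_[p]) →L[ℚ_[p]] ℚ_[p])) 0 := by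
    have h3 : HasStrictFDerivAt (fun x : Fin 3 → ℚ_[p] => x 2)
      (ContinuousLinearMap.proj 2 : (Fin 3 → ℚ_[p]) →L[ℚ_[p]] ℚ_[p]) 0 :=
      hasStrictFDerivAt_apply _ _
    exact (h3.const_mul ρ).const_add 1
  have hne : (1 + ρ * (0 : Fin 3 → ℚ_[p]) 2) ≠ 0 := by simp
  have h4 := (hasStrictDerivAt_inv hne).comp_hasStrictFDerivAt (0 : Fin 3 → ℚ_[p]) h2
  have h5 := h1.mul h4
  refine h5.congr_fderiv ?_
  ext v
  simp

lemma siz_norm0 : Siz (fun x : Fin 1 → ℚ_[p] => ‖x 0‖) := by
  refine ⟨(continuous_apply 0).norm, fun x => ?_⟩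
  by_cases h0 : x 0 = 0
  · left; simp only [h0, norm_zero]
  · right
    exact ⟨_, Padic.norm_eq_zpow_neg_valuation h0⟩

theorem smooth_core (hAlg : StAlg) (hNorm : StNorm) (hRoot : StRootQ) (hX : StX1) (hMax : StMax)
    (hPlane : StPlane) (hDiff : StDiff) (hEval : StEval) (φ : ℚ_[p] →+* ℂ) {r : ℕ}
    (f : Fin r → MvPolynomial (Fin 3) ℚ_[p]) (i0 : Fin r) (hc : ∀ j, constantCoeff (f j) = 0)
    (hdeg : (f i0).totalDegree ≤ 2) (hb : coeff (Finsupp.single 2 1) (f i0) ≠ 0) :
    LPF φ f 0 := by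
  classical
  obtain ⟨ρ, D, e, h, G, hA⟩ := hAlg _ f i0 (hc i0) hdeg hb
  haveI : Nonempty (Fin r) := ⟨i0⟩
  obtain ⟨j1, hj1⟩ := Finite.exists_max (fun j => ‖coeff (Finsupp.single 2 1) (f j)‖)
  have hb1 : coeff (Finsupp.single 2 1) (f j1) ≠ 0 := by
    intro h0
    have h1 := hj1 i0
    rw [h0, norm_zero] at h1
    exact hb (norm_le_zero_iff.1 h1)
  have hn := hNorm p f i0 j1 ρ D e h G hA hc hb hj1
  obtain ⟨hr1, hr2⟩ := hRoot φ f i0 j1 ρ D e h G hA hc hb hb1
  have hzero : (fun i : Fin 3 => φ ((0 : Fin 3 → ℚ_[p]) i)) = 0 := by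
    funext i
    exact map_zero φ
  have hzero2 : (fun i : Fin 2 => φ ((0 : Fin 2 → ℚ_[p]) i)) = 0 := by
    funext i
    exact map_zero φ
  have hev0 : eval 0 (f j1) = 0 := by
    have h1 : eval (0 : Fin 3 → ℚ_[p]) (f j1) = constantCoeff (f j1) :=
      congrFun (congrArg DFunLike.coe MvPolynomial.eval_zero) _
    rw [h1, hc]
  have hder := hEval p (f j1) 0
  by_cases hall : ∀ j, rem f j1 D e h j = 0
  · -- one variable
    have hSF := hr1 hall
    have hL : LP (mS φ f 0) (fun x : Fin 1 → ℚ_[p] => ‖x 0‖) 0 := by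
      refine LP.mono' (fun T hT => ?_) (hX p)
      by_cases hTp : T = (p : ℂ)
      · have h1 : mS φ f 0 T = ⊤ := by
          unfold mS
          rw [hzero, hTp, rr_self, if_pos]
          have h2 : (((-1 : ℝ)) : ℂ) = -1 := by push_cast; rfl
          rw [h2]
          exact hSF
        rw [h1]
        exact le_top
      · simp only [if_neg hTp]
        exact bot_le
    refine hDiff p 1 (fun _ y => eval y (f j1)) (fun _ => ∑ i, eval 0 (pderiv i (f j1)) •
      (ContinuousLinearMap.proj i : (Fin 3 → ℚ_[p]) →L[ℚ_[p]] ℚ_[p])) (fun _ => 2)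
      (nrm f) (fun x => ‖x 0‖) 0 (mS φ f 0) siz_norm0 (fun _ => hder) ?_ ?_ ?_
    · rw [Matrix.det_fin_one, Matrix.of_apply]
      simp only [ContinuousLinearMap.sum_apply, ContinuousLinearMap.smul_apply,
        ContinuousLinearMap.proj_apply, smul_eq_mul]
      rw [Finset.sum_eq_single (2 : Fin 3)]
      · rw [Pi.single_eq_same, mul_one, cc_pderiv]
        exact hb1
      · intro l _ hl
        rw [Pi.single_eq_of_ne hl, mul_zero]
      · intro h0; exact absurd (Finset.mem_univ _) h0
    · refine hn.mono fun y hy => ?_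
      rw [hy]
      have h1 : nrm (rem f j1 D e h) ![y 0 * (1 + ρ * y 2)⁻¹, y 1 * (1 + ρ * y 2)⁻¹] = 0 := by
        unfold nrm
        simp only [hall, map_zero]
        exact norm_zero
      rw [h1]
      exact max_eq_left (norm_nonneg _)
    · have h1 : (fun _ : Fin 1 => eval (0 : Fin 3 → ℚ_[p]) (f j1)) = 0 := by
        funext _
        exact hev0
      rw [h1]
      exact hL
  · push Not at hall
    have hSF := hr2 hall
    have hL2 := hPlane p φ (rem f j1 D e h) hall 0
    set H1 : (Fin 1 → ℚ_[p]) → ℝ := fun x => ‖x 0‖ with hH1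
    set H2 : (Fin 2 → ℚ_[p]) → ℝ := nrm (rem f j1 D e h) with hH2
    have hL3 : LP (mS φ f 0) (fun x : Fin (1 + 2) → ℚ_[p] =>
        max (H1 (fun i => x (Fin.castAdd 2 i))) (H2 (fun i => x (Fin.natAdd 1 i)))) 0 := by
      refine hMax p H1 H2 0 (fun T => if T = (p : ℂ) then 1 else 0) (mS φ (rem f j1 D e h) 0)
        (mS φ f 0) siz_norm0 (siz_nrm _) ?_ (hX p) hL2
      intro T1 T2 hT1 hT2 a b ha hb ha' hb'
      have h1 : T1 = (p : ℂ) := by
        by_contra hcon
        simp only [if_neg hcon] at ha'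
        have : a = 0 := by
          have := nonpos_iff_eq_zero.1 ha'
          exact_mod_cast this
        omega
      have h2 : SF (fun j => map φ (rem f j1 D e h j)) 0 ((rr p T2 : ℝ) : ℂ) := by
        by_contra hcon
        unfold mS at hb'
        rw [hzero2, if_neg hcon] at hb'
        have : b = 0 := by
          have := nonpos_iff_eq_zero.1 hb'
          exact_mod_cast this
        omega
      have h3 : mS φ f 0 (T1 * T2) = ⊤ := by
        unfold mS
        rw [hzero, if_pos]
        rw [rr_mul T1 T2 hT1 hT2, h1, rr_self]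
        have h4 := hSF _ h2
        push_cast
        exact h4
      rw [h3]
      exact le_top
    have hS : Siz (fun x : Fin (1 + 2) → ℚ_[p] =>
        max (H1 (fun i => x (Fin.castAdd 2 i))) (H2 (fun i => x (Fin.natAdd 1 i)))) := by
      have s1 : Siz H1 := siz_norm0
      have s2 : Siz H2 := siz_nrm _
      have hc : Continuous (fun (x : Fin (1 + 2) → ℚ_[p]) (i : Fin 1) => x (Fin.castAdd 2 i)) :=
        continuous_pi fun i => continuous_apply _
      have c1 : Continuous (fun x : Fin (1 + 2) → ℚ_[p] => H1 (fun i => x (Fin.castAdd 2 i))) := by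
        exact s1.cont.comp hc
      have c2 : Continuous (fun x : Fin (1 + 2) → ℚ_[p] => H2 (fun i => x (Fin.natAdd 1 i))) :=
        s2.cont.comp (continuous_pi fun i => continuous_apply _)
      refine ⟨c1.max c2, fun x => ?_⟩
      rcases max_choice (H1 (fun i => x (Fin.castAdd 2 i))) (H2 (fun i => x (Fin.natAdd 1 i)))
        with h | h
      · have h5 := s1.val (fun i => x (Fin.castAdd 2 i))
        rw [← h] at h5
        exact h5
      · have h5 := s2.val (fun i => x (Fin.natAdd 1 i))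
        rw [← h] at h5
        exact h5
    set g : Fin (1 + 2) → (Fin 3 → ℚ_[p]) → ℚ_[p] := ![fun y => eval y (f j1),
      fun y => y 0 * (1 + ρ * y 2)⁻¹, fun y => y 1 * (1 + ρ * y 2)⁻¹] with hg
    set L : Fin (1 + 2) → (Fin 3 → ℚ_[p]) →L[ℚ_[p]] ℚ_[p] := ![∑ i, eval 0 (pderiv i (f j1)) •
      (ContinuousLinearMap.proj i : (Fin 3 → ℚ_[p]) →L[ℚ_[p]] ℚ_[p]),
      ContinuousLinearMap.proj 0, ContinuousLinearMap.proj 1] with hLdef
    refine hDiff p (1 + 2) g L (![2, 0, 1] : Fin 3 → Fin 3)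
      (nrm f) (fun x : Fin (1 + 2) → ℚ_[p] =>
        max (H1 (fun i => x (Fin.castAdd 2 i))) (H2 (fun i => x (Fin.natAdd 1 i)))) 0 (mS φ f 0)
      hS (fun t => ?_) ?_ ?_ ?_
    · change Fin 3 at t
      fin_cases t
      · exact hder
      · exact chart_deriv ρ 0
      · exact chart_deriv ρ 1
    · change (Matrix.of fun u t : Fin 3 => L t (Pi.single ((![2, 0, 1] : Fin 3 → Fin 3) u)
        1)).det ≠ 0
      rw [Matrix.det_fin_three]
      have e0 : ∀ l : Fin 3, L (0 : Fin 3) (Pi.single l 1) =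
          coeff (Finsupp.single l 1) (f j1) := by
        intro l
        change (∑ i, eval 0 (pderiv i (f j1)) •
          (ContinuousLinearMap.proj i : (Fin 3 → ℚ_[p]) →L[ℚ_[p]] ℚ_[p])) (Pi.single l 1) = _
        simp only [ContinuousLinearMap.sum_apply, ContinuousLinearMap.smul_apply,
          ContinuousLinearMap.proj_apply, smul_eq_mul]
        rw [Finset.sum_eq_single l]
        · rw [Pi.single_eq_same, mul_one, cc_pderiv]
        · intro l' _ hl
          rw [Pi.single_eq_of_ne hl, mul_zero]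
        · intro h0; exact absurd (Finset.mem_univ _) h0
      have e1 : ∀ l : Fin 3, L (1 : Fin 3) (Pi.single l 1) = (Pi.single l 1 : Fin 3 → ℚ_[p]) 0 :=
        fun l => rfl
      have e2 : ∀ l : Fin 3, L (2 : Fin 3) (Pi.single l 1) = (Pi.single l 1 : Fin 3 → ℚ_[p]) 1 :=
        fun l => rfl
      simp only [Matrix.of_apply, e0, e1, e2]
      simp
      exact hb1
    · refine hn.mono fun y hy => ?_
      rw [hy]
      have h1 : (fun i : Fin 2 => g (Fin.natAdd 1 i) y) =
          ![y 0 * (1 + ρ * y 2)⁻¹, y 1 * (1 + ρ * y 2)⁻¹] := by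
        funext i
        fin_cases i <;> rfl
      rw [h1]
      rfl
    · have h1 : (fun t : Fin (1 + 2) => g t 0) = 0 := by
        funext t
        change Fin 3 at t
        fin_cases t
        · exact hev0
        · change (0 : Fin 3 → ℚ_[p]) 0 * _ = 0
          simp
        · change (0 : Fin 3 → ℚ_[p]) 1 * _ = 0
          simp
      rw [h1]
      exact hL3

end core

theorem qp_smooth : StAlg → StNorm → StRootQ → StX1 → StMax → StPlane → StDiff → StEval → StAff →
    StUnit → StSmooth := by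
  intro hAlg hNorm hRoot hX hMax hPlane hDiff hEval hAff _ p _ φ r f P i0 i h0 hdeg hd
  classical
  set τ : Equiv.Perm (Fin 3) := Equiv.swap i 2 with hτ
  set M : Matrix (Fin 3) (Fin 3) ℚ_[p] := (1 : Matrix (Fin 3) (Fin 3) ℚ_[p]).submatrix id τ with hM
  have hMdet : M.det ≠ 0 := by
    rw [hM, Matrix.det_permute', Matrix.det_one, mul_one]
    exact_mod_cast (Int.cast_ne_zero (α := ℚ_[p])).2 (Units.ne_zero (Equiv.Perm.sign τ))
  have hne : ∃ j, f j ≠ 0 := by
    refine ⟨i0, fun h => hd ?_⟩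
    rw [h, map_zero, map_zero]
  refine hAff p φ f P M hMdet hne ?_
  have hf : (fun j => aeval (fun i => C (P i) + ∑ k, C (M i k) * X k :
      Fin 3 → MvPolynomial (Fin 3) ℚ_[p]) (f j)) = fun j => shP P τ (f j) := by
    funext j
    unfold shP
    congr 2
    funext a
    congr 1
    rw [Finset.sum_eq_single (τ a)]
    · rw [hM, Matrix.submatrix_apply, id, hτ, Equiv.swap_apply_self, Matrix.one_apply_eq, map_one,
        one_mul]
    · intro k _ hk
      rw [hM, Matrix.submatrix_apply, id, Matrix.one_apply_ne, map_zero, zero_mul]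
      intro h
      apply hk
      rw [h, hτ, Equiv.swap_apply_self]
    · intro h; exact absurd (Finset.mem_univ _) h
  rw [hf]
  refine smooth_core hAlg hNorm hRoot hX hMax hPlane hDiff hEval φ (fun j => shP P τ (f j)) i0
    (fun j => ?_) ((shP_deg P τ (f i0)).trans hdeg) ?_
  · have h1 : eval (0 : Fin 3 → ℚ_[p]) (shP P τ (f j)) = constantCoeff (shP P τ (f j)) :=
      congrFun (congrArg DFunLike.coe MvPolynomial.eval_zero) _
    rw [← h1, shP_eval, h0]
  · rw [← cc_pderiv, shP_pderiv, shP_eval, hτ, Equiv.symm_swap, Equiv.swap_apply_right]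
    exact hd

end Pool.Agent.Q247.QP
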